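import Pool.Agent.Q161.ESG.Stm5
import Pool.Agent.Q224.ESM.FRX
import Pool.Agent.Q241.ESM.Teq
import Pool.Agent.Q124.ESM.LOC
import Pool.Agent.Q63.EA.Exc0
import Pool.Agent.Q161.SX.Emb

/-!
# Job GDJ of project ESG (helper161): the local conditions
-/

set_option autoImplicit false

namespace Pool.Agent.Q177.ESG.GDJ

open Polynomial NumberField IsDedekindDomain
open Pool.Agent.Q51.EL (Setup Abv Par)
open Pool.Agent.Q161.ESM Pool.Agent.Q161.ESG

/-! ### Elements of `Ω` fixed by automorphisms -/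

section fix

variable {l : ℕ} [Fact l.Prime] {K : Type} [Field K] [NumberField K]

/-- the elements fixed by the automorphisms which are trivial on `ψ(K)` are limits of elements of `ψ(K)` -/
theorem approx (ψ : K →+* PadicAlgCl l) (z : PadicAlgCl l)
    (hz : ∀ τ : PadicAlgCl l ≃ₐ[ℚ_[l]] PadicAlgCl l, (∀ x : K, τ (ψ x) = ψ x) → τ z = z) :
    z ∈ closure (Set.range ψ) := by
  have hc : Continuous (algebraMap ℚ_[l] (PadicAlgCl l)) := continuous_algebraMap _ _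
  have h1 : ∀ a : ℚ_[l], algebraMap ℚ_[l] (PadicAlgCl l) a ∈ (ψ.range).topologicalClosure := by
    intro a
    have h2 : a ∈ closure (Set.range ((↑) : ℚ → ℚ_[l])) := Padic.denseRange_ratCast l a
    have h3 := map_mem_closure hc h2 (t := ((ψ.range : Subring (PadicAlgCl l)) : Set (PadicAlgCl l))) (by
      rintro _ ⟨q, rfl⟩
      refine ⟨(q : K), ?_⟩
      rw [map_ratCast, map_ratCast])
    exact h3
  let S : Subalgebra ℚ_[l] (PadicAlgCl l) :=
    { (ψ.range).topologicalClosure with algebraMap_mem' := h1 }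
  have h2 : Algebra.adjoin ℚ_[l] (Set.range ψ) ≤ S := by
    refine Algebra.adjoin_le ?_
    rintro _ ⟨x, rfl⟩
    exact subset_closure ⟨x, rfl⟩
  have h3 : z ∈ IntermediateField.adjoin ℚ_[l] (Set.range ψ) := by
    rw [← InfiniteGalois.fixedField_fixingSubgroup (IntermediateField.adjoin ℚ_[l] (Set.range ψ)),
      IntermediateField.mem_fixedField_iff]
    intro τ hτ
    refine hz τ fun x => ?_
    exact (IntermediateField.mem_fixingSubgroup_iff _ _).1 hτ _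
      (IntermediateField.subset_adjoin _ _ ⟨x, rfl⟩)
  have h4 : z ∈ (IntermediateField.adjoin ℚ_[l] (Set.range ψ)).toSubalgebra := h3
  rw [IntermediateField.adjoin_toSubalgebra] at h4
  have h5 := h2 h4
  exact h5

/-- the norm is an integral power of `l` -/
def IP (l : ℕ) (r : ℝ) : Prop := ∃ m : ℤ, r = (l : ℝ) ^ m

theorem norm_ip (ψ : K →+* PadicAlgCl l) (hψ : ∀ x : K, x ≠ 0 → IP l ‖ψ x‖) (z : PadicAlgCl l)
    (hz0 : z ≠ 0)
    (hz : ∀ τ : PadicAlgCl l ≃ₐ[ℚ_[l]] PadicAlgCl l, (∀ x : K, τ (ψ x) = ψ x) → τ z = z) :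
    IP l ‖z‖ := by
  have h1 := approx ψ z hz
  rw [Metric.mem_closure_range_iff] at h1
  obtain ⟨x, hx⟩ := h1 ‖z‖ (norm_pos_iff.2 hz0)
  rw [dist_eq_norm] at hx
  have h2 : ‖ψ x‖ = ‖z‖ := by
    have h3 : ‖z + -ψ x‖ < max ‖z‖ ‖-ψ x‖ := by
      rw [← sub_eq_add_neg]
      exact lt_of_lt_of_le hx (le_max_left _ _)
    have h4 := IsUltrametricDist.norm_eq_of_add_norm_lt_max h3
    rw [norm_neg] at h4
    exact h4.symm
  have h3 : x ≠ 0 := by
    rintro rfl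
    rw [map_zero, norm_zero] at h2
    exact hz0 (norm_eq_zero.1 h2.symm)
  rw [← h2]
  exact hψ x h3

/-- the elements fixed by all automorphisms -/
theorem fixed_all (z : PadicAlgCl l) (hz : ∀ τ : PadicAlgCl l ≃ₐ[ℚ_[l]] PadicAlgCl l, τ z = z) :
    ∃ a : ℚ_[l], algebraMap ℚ_[l] (PadicAlgCl l) a = z :=
  (InfiniteGalois.mem_range_algebraMap_iff_fixed z).2 hz

theorem norm_map (a : ℚ_[l]) : ‖algebraMap ℚ_[l] (PadicAlgCl l) a‖ = ‖a‖ :=
  PadicAlgCl.norm_extends l a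

/-- the norm of an integer exactly divisible by `l` -/
theorem norm_D {D : ℤ} (h1 : (l : ℤ) ∣ D) (h2 : ¬ (l : ℤ) ^ 2 ∣ D) :
    ‖((D : ℤ) : PadicAlgCl l)‖ = (l : ℝ) ^ (-1 : ℤ) := by
  have e : ((D : ℤ) : PadicAlgCl l) = algebraMap ℚ_[l] (PadicAlgCl l) (D : ℚ_[l]) := by
    rw [map_intCast]
  rw [e, norm_map]
  have a1 : ‖(D : ℚ_[l])‖ ≤ (l : ℝ) ^ (-(1 : ℕ) : ℤ) := by
    rw [Padic.norm_int_le_pow_iff_dvd, pow_one]
    exact h1
  have a2 : ¬ ‖(D : ℚ_[l])‖ ≤ (l : ℝ) ^ (-(2 : ℕ) : ℤ) := by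
    rw [Padic.norm_int_le_pow_iff_dvd]
    exact_mod_cast h2
  have h0 : (D : ℚ_[l]) ≠ 0 := by
    intro h
    apply a2
    rw [h, norm_zero]
    positivity
  have hl : (1 : ℝ) < l := by exact_mod_cast (Fact.out : l.Prime).one_lt
  rw [Padic.norm_eq_zpow_neg_valuation h0] at a1 a2 ⊢
  rw [zpow_le_zpow_iff_right₀ hl] at a1 a2
  congr 1
  push_cast at a1 a2
  omega

end fix

/-! ### The zeros of `h` -/

section rt

variable {l : ℕ} [Fact l.Prime] {K : Type} [Field K] [NumberField K] {L : Type} [Field L]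
  [NumberField L] {H : HP} {th : 𝓞 L}

/-- the zero of `h` given by the embedding `ι` -/
noncomputable def zt (th : 𝓞 L) (ψ : K →+* PadicAlgCl l) (ι : L →+* K) : PadicAlgCl l := ψ (ι (th : L))

theorem X_inj (hs : Setup H.pol L (th : L)) (ψ : K →+* PadicAlgCl l) : Function.Injective (zt th ψ) := by
  intro ι ι' h
  have h1 : ι (th : L) = ι' (th : L) := ψ.injective h
  have h3 : ι.toRatAlgHom = ι'.toRatAlgHom := Pool.Agent.Q161.SX.Setup.hom_ext hs h1
  ext y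
  exact AlgHom.congr_fun h3 y

theorem ev_pol (H : HP) (E : Type) [Field E] [CharZero E] (x : E) :
    (pol H E).eval x = aeval x H.pol := by
  unfold pol
  rw [eval_map, aeval_def]
  congr 1

theorem pol_ne (H : HP) (E : Type) [Field E] : pol H E ≠ 0 := (H.monic.map _).ne_zero

theorem mem_rts (H : HP) (x : PadicAlgCl l) :
    x ∈ rts H l ↔ (pol H (PadicAlgCl l)).eval x = 0 := by
  classical
  unfold rts
  rw [Multiset.mem_toFinset, mem_roots (pol_ne H _), IsRoot.def]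

theorem X_mem (hs : Setup H.pol L (th : L)) (ψ : K →+* PadicAlgCl l) (ι : L →+* K) :
    zt th ψ ι ∈ rts H l := by
  rw [mem_rts, ev_pol]
  exact Pool.Agent.Q161.SX.Setup.root_hom hs (ψ.comp ι).toRatAlgHom

theorem card_emb [IsGalois ℚ K] (hne : Nonempty (L →+* K)) :
    Nat.card (L →+* K) = Module.finrank ℚ L := by
  obtain ⟨φ⟩ := hne
  have h4 := AlgHom.natCard_of_splits ℚ L K (fun x => by
    rw [← minpoly.algHom_eq φ.toRatAlgHom φ.injective x]
    exact Normal.splits inferInstance _)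
  rw [← h4]
  exact Nat.card_congr (RingHom.equivRatAlgHom L K)

open Classical in
theorem rts_eq [IsGalois ℚ K] (hne : Nonempty (L →+* K)) (hs : Setup H.pol L (th : L))
    (ψ : K →+* PadicAlgCl l) : rts H l = Finset.univ.image (zt th ψ) := by
  symm
  refine Finset.eq_of_subset_of_card_le ?_ ?_
  · intro x hx
    rw [Finset.mem_image] at hx
    obtain ⟨ι, -, rfl⟩ := hx
    exact X_mem hs ψ ι
  · rw [Finset.card_image_of_injective _ (X_inj hs ψ), Finset.card_univ, ← Nat.card_eq_fintype_card,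
      card_emb hne, hs.deg]
    have h1 : (rts H l).card ≤ Multiset.card (pol H (PadicAlgCl l)).roots :=
      Multiset.toFinset_card_le _
    refine h1.trans ((card_roots' _).trans ?_)
    unfold pol
    exact natDegree_map_le

theorem exists_X [IsGalois ℚ K] (hne : Nonempty (L →+* K)) (hs : Setup H.pol L (th : L))
    (ψ : K →+* PadicAlgCl l) {x : PadicAlgCl l} (hx : x ∈ rts H l) : ∃ ι : L →+* K, zt th ψ ι = x := by
  classical
  rw [rts_eq hne hs ψ, Finset.mem_image] at hx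
  obtain ⟨ι, -, h⟩ := hx
  exact ⟨ι, h⟩

theorem gl [IsGalois ℚ K] (hne : Nonempty (L →+* K)) (hs : Setup H.pol L (th : L))
    (ψ : K →+* PadicAlgCl l)
    (hd : ∀ ι ι' : L →+* K, ι ≠ ι' → ‖ψ (ι (th : L) - ι' (th : L))‖ = 1) : Gl H l := by
  constructor
  · have h1 : pol H (PadicAlgCl l) = (H.pol.map (Int.castRingHom ℚ)).map (algebraMap ℚ _) := by
      unfold pol
      rw [Polynomial.map_map]
      congr 1
    rw [h1]
    exact hs.irr.separable.map
  · intro x hx y hy hxy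
    obtain ⟨ι, rfl⟩ := exists_X hne hs ψ hx
    obtain ⟨ι', rfl⟩ := exists_X hne hs ψ hy
    have h1 : ι ≠ ι' := by
      rintro rfl
      exact hxy rfl
    rw [← hd ι ι' h1, map_sub]
    rfl

/-- the local condition at a zero of `h` -/
theorem locx_eval {D : ℤ} {d : ℚ[X]} {u G : ℚ_[l][X]}
    (h : pol H ℚ_[l] ∣ C ((-1) ^ u.natDegree) * u.comp (C (D : ℚ_[l]) * X) *
      d.map (Rat.castHom ℚ_[l]) - G ^ 2) {x : PadicAlgCl l} (hx : x ∈ rts H l) :
    (-1) ^ u.natDegree * aeval ((D : PadicAlgCl l) * x) u * aeval x d = aeval x G ^ 2 := by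
  have h1 : aeval x (pol H ℚ_[l]) = 0 := by
    rw [mem_rts] at hx
    rw [aeval_def, ← eval_map, pol_map, hx]
  have h2 := zero_dvd_iff.1 (h1 ▸ map_dvd (aeval x) h)
  have h3 : aeval x (C ((-1) ^ u.natDegree) : ℚ_[l][X]) = (-1) ^ u.natDegree := by
    rw [aeval_C, map_pow, map_neg, map_one]
  have h4 : aeval x (C (D : ℚ_[l]) * X : ℚ_[l][X]) = (D : PadicAlgCl l) * x := by
    rw [map_mul, aeval_C, aeval_X, map_intCast]
  have h5 : aeval x (d.map (Rat.castHom ℚ_[l])) = aeval x d := by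
    rw [aeval_def, aeval_def, eval₂_map]
    congr 1
  rw [map_sub, map_mul, map_mul, aeval_comp, h3, h4, h5, map_pow, sub_eq_zero] at h2
  exact h2

theorem aeval_X_d {th : 𝓞 L} (ψ : K →+* PadicAlgCl l) (ι : L →+* K) {d : ℚ[X]} {δ : L}
    (h : aeval (th : L) d = δ) : aeval (zt th ψ ι) d = ψ (ι δ) := by
  rw [← h]
  exact (Polynomial.aeval_algHom_apply (ψ.comp ι).toRatAlgHom (th : L) d)

end rt

/-! ### Valuations -/

section val

variable {l : ℕ} [Fact l.Prime] {K : Type} [Field K] [NumberField K]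

theorem val_exp (w : HeightOneSpectrum (𝓞 K)) {x : K} (hx : x ≠ 0) :
    ∃ m : ℤ, w.valuation K x = WithZero.exp (-m) := by
  have h : w.valuation K x ≠ 0 := (Valuation.ne_zero_iff _).2 hx
  refine ⟨-WithZero.log (w.valuation K x), ?_⟩
  rw [neg_neg, WithZero.exp_log h]

/-- the norm is given by the valuation -/
def Nm (w : HeightOneSpectrum (𝓞 K)) (ψ : K →+* PadicAlgCl l) : Prop :=
  ∀ (x : K) (m : ℤ), w.valuation K x = WithZero.exp (-m) → ‖ψ x‖ = (l : ℝ) ^ (-m)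

variable {w : HeightOneSpectrum (𝓞 K)} {ψ : K →+* PadicAlgCl l}

theorem l_gt : (1 : ℝ) < l := by exact_mod_cast (Fact.out : l.Prime).one_lt

theorem ip_of (h : Nm w ψ) {x : K} (hx : x ≠ 0) : IP l ‖ψ x‖ := by
  obtain ⟨m, hm⟩ := val_exp w hx
  exact ⟨-m, h x m hm⟩

theorem val_of_norm (h : Nm w ψ) {x : K} (hx : x ≠ 0) {m : ℤ} (hn : ‖ψ x‖ = (l : ℝ) ^ m) :
    w.valuation K x = WithZero.exp m := by
  obtain ⟨k, hk⟩ := val_exp w hx
  have h1 := h x k hk
  rw [hn] at h1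
  have h2 : m = -k := zpow_right_injective₀ (by linarith [l_gt (l := l)]) (ne_of_gt l_gt) h1
  rw [hk, h2]

theorem norm_of_one (h : Nm w ψ) {x : K} (hx : w.valuation K x = 1) : ‖ψ x‖ = 1 := by
  have h1 := h x 0 (by rw [hx]; rfl)
  rw [h1, neg_zero, zpow_zero]

theorem val_lt_one (h : Nm w ψ) {x : K} (hn : ‖ψ x‖ < 1) : w.valuation K x < 1 := by
  by_cases hx : x = 0
  · rw [hx, map_zero]
    exact zero_lt_one
  · obtain ⟨k, hk⟩ := val_exp w hx
    rw [h x k hk] at hn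
    have h1 : -k < 0 := by
      rw [← zpow_zero (l : ℝ)] at hn
      exact (zpow_lt_zpow_iff_right₀ l_gt).1 hn
    rw [hk]
    have h2 : (1 : WithZero (Multiplicative ℤ)) = WithZero.exp 0 := rfl
    rw [h2, WithZero.exp_lt_exp]
    exact h1

theorem par_even (h : Nm w ψ) {x : K} (hx : x ≠ 0) {r : ℝ} (hr : IP l r) (e : ‖ψ x‖ = r ^ 2) :
    Par w x 0 := by
  obtain ⟨m, rfl⟩ := hr
  refine ⟨m, val_of_norm h hx ?_⟩
  rw [e, ← zpow_natCast, ← zpow_mul]
  congr 1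
  push_cast
  ring

theorem par_odd (h : Nm w ψ) {x : K} (hx : x ≠ 0) {r : ℝ} (hr : IP l r)
    (e : ‖ψ x‖ * (l : ℝ) ^ (-1 : ℤ) = r ^ 2) : Par w x 1 := by
  obtain ⟨m, rfl⟩ := hr
  have hl : (l : ℝ) ≠ 0 := by linarith [l_gt (l := l)]
  refine ⟨m, val_of_norm h hx ?_⟩
  have h1 : ‖ψ x‖ = ((l : ℝ) ^ m) ^ 2 * (l : ℝ) ^ (1 : ℤ) := by
    rw [← e, mul_assoc, ← zpow_add₀ hl]
    norm_num
  rw [h1, ← zpow_natCast, ← zpow_mul, ← zpow_add₀ hl]
  congr 1
  push_cast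
  ring

end val

/-! ### The primes not dividing `D` -/

section parts

variable {l : ℕ} [Fact l.Prime] {K : Type} [Field K] [NumberField K] {L : Type} [Field L]
  [NumberField L] {H : HP} {th : 𝓞 L} {w : HeightOneSpectrum (𝓞 K)} {ψ : K →+* PadicAlgCl l}

theorem aeval_tau (τ : PadicAlgCl l ≃ₐ[ℚ_[l]] PadicAlgCl l) (x : PadicAlgCl l) (G : ℚ_[l][X]) :
    aeval (τ x) G = τ (aeval x G) := aeval_algHom_apply τ.toAlgHom x G

theorem even_part (hl2 : l ≠ 2) (hE : S_J3E) (hgl : Gl H l) {D : ℤ} (hD : ¬ (l : ℤ) ∣ D)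
    (hs : Setup H.pol L (th : L)) (hN : Nm w ψ) {d : ℚ[X]} {δ : L} (hδ : δ ≠ 0)
    (hd : aeval (th : L) d = δ) (hloc : LocX H D ℚ_[l] d) (ι : L →+* K) : Par w (ι δ) 0 := by
  obtain ⟨u, v, G, hu, huv, hcop, hdiv⟩ := hloc
  obtain ⟨c, s, hs1, hs2⟩ := hE l hl2 H hgl D hD u v hu huv hcop
  have hx := X_mem hs ψ ι
  obtain ⟨a1, a2, a3⟩ := hs2 _ hx
  have e1 := locx_eval hdiv hx
  rw [a3, aeval_X_d ψ ι hd] at e1
  have hδ' : ψ (ι δ) ≠ 0 := (map_ne_zero ψ).2 ((map_ne_zero ι).2 hδ)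
  have hc : c (zt th ψ ι) ≠ 0 := by
    intro h
    rw [h, norm_zero] at a1
    exact zero_ne_one a1
  have e2 : (aeval (zt th ψ ι) G / s (zt th ψ ι)) ^ 2 = c (zt th ψ ι) * ψ (ι δ) := by
    rw [div_pow, ← e1]
    field_simp
  have hr0 : aeval (zt th ψ ι) G / s (zt th ψ ι) ≠ 0 := by
    intro h
    rw [h] at e2
    exact mul_ne_zero hc hδ' (by rw [← e2]; norm_num)
  have hfix : ∀ τ : PadicAlgCl l ≃ₐ[ℚ_[l]] PadicAlgCl l, (∀ y : K, τ (ψ y) = ψ y) →
      τ (aeval (zt th ψ ι) G / s (zt th ψ ι)) = aeval (zt th ψ ι) G / s (zt th ψ ι) := by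
    intro τ hτ
    have h1 : τ (zt th ψ ι) = zt th ψ ι := hτ _
    rw [map_div₀, ← hs1 τ _ hx, ← aeval_tau, h1]
  refine par_even hN ((map_ne_zero ι).2 hδ)
    (norm_ip ψ (fun y hy => ip_of hN hy) _ hr0 hfix) ?_
  rw [← norm_pow, e2, norm_mul, a1, one_mul]

/-! ### The primes dividing `D` -/

open Classical in
theorem prod_eq [IsGalois ℚ K] (hne : Nonempty (L →+* K)) (hs : Setup H.pol L (th : L))
    (ψ : K →+* PadicAlgCl l) (e : PadicAlgCl l → ZMod 2) (a : ZMod 2) (ι : L →+* K) :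
    ψ (∏ ι' ∈ Finset.univ.filter (fun ι' : L →+* K => ι'.comp (algebraMap ℚ L) =
      ι.comp (algebraMap ℚ L) ∧ e (zt th ψ ι') = a), (ι (th : L) - ι' (th : L))) =
      ∏ y ∈ (rts H l).filter (fun y => e y = a), (zt th ψ ι - y) := by
  rw [rts_eq hne hs ψ, Finset.filter_image, Finset.prod_image (fun _ _ _ _ h => X_inj hs ψ h),
    map_prod]
  refine Finset.prod_congr ?_ ?_
  · ext ι'
    simp [Subsingleton.elim (ι'.comp (algebraMap ℚ L)) (ι.comp (algebraMap ℚ L))]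
  · intro ι' _
    rw [map_sub]
    rfl

theorem uu_eq [IsGalois ℚ K] (hne : Nonempty (L →+* K)) (hs : Setup H.pol L (th : L))
    (ψ : K →+* PadicAlgCl l) (e : PadicAlgCl l → ZMod 2) (ι : L →+* K) :
    ψ (uu (algebraMap ℚ L) th (fun ι => e (zt th ψ ι)) ι) = uO H e (zt th ψ ι) := by
  unfold uu uO
  split_ifs with h
  · exact prod_eq hne hs ψ e 1 ι
  · rw [map_neg]
    congr 1
    exact prod_eq hne hs ψ e 0 ι

theorem norm_uO (hgl : Gl H l) (e : PadicAlgCl l → ZMod 2) {x : PadicAlgCl l} (hx : x ∈ rts H l) :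
    ‖uO H e x‖ = 1 := by
  unfold uO
  split_ifs with h
  · rw [norm_prod]
    refine Finset.prod_eq_one fun y hy => ?_
    rw [Finset.mem_filter] at hy
    refine hgl.2 x hx y hy.1 ?_
    rintro rfl
    rw [h] at hy
    exact absurd hy.2 (by decide)
  · rw [norm_neg, norm_prod]
    refine Finset.prod_eq_one fun y hy => ?_
    rw [Finset.mem_filter] at hy
    refine hgl.2 x hx y hy.1 ?_
    rintro rfl
    exact h hy.2

/-- the square roots -/
noncomputable def Mf (D : ℤ) (u G : ℚ_[l][X]) (s : PadicAlgCl l → PadicAlgCl l) (x : PadicAlgCl l) :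
    PadicAlgCl l := aeval x G * s x / ((-1) ^ u.natDegree * aeval ((D : PadicAlgCl l) * x) u)

theorem Mf_tau {D : ℤ} {u G : ℚ_[l][X]} {s : PadicAlgCl l → PadicAlgCl l}
    (τ : PadicAlgCl l ≃ₐ[ℚ_[l]] PadicAlgCl l) {x : PadicAlgCl l} (h : s (τ x) = τ (s x)) :
    Mf D u G s (τ x) = τ (Mf D u G s x) := by
  unfold Mf
  have h1 : (D : PadicAlgCl l) * τ x = τ ((D : PadicAlgCl l) * x) := by
    rw [map_mul, map_intCast]
  rw [h, h1, aeval_tau, aeval_tau, map_div₀, map_mul, map_mul, map_pow, map_neg, map_one]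

theorem Mf_sq {D : ℤ} {u G : ℚ_[l][X]} {s : PadicAlgCl l → PadicAlgCl l} {x y c : PadicAlgCl l}
    (h1 : (-1) ^ u.natDegree * aeval ((D : PadicAlgCl l) * x) u * y = aeval x G ^ 2)
    (h2 : (-1) ^ u.natDegree * aeval ((D : PadicAlgCl l) * x) u * c = s x ^ 2) (h3 : s x ≠ 0) :
    Mf D u G s x ^ 2 = y * c := by
  unfold Mf
  have h4 : (-1) ^ u.natDegree * aeval ((D : PadicAlgCl l) * x) u ≠ 0 := by
    intro h
    rw [h, zero_mul] at h2
    exact h3 (pow_eq_zero_iff (two_ne_zero)|>.1 h2.symm)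
  rw [div_pow, mul_pow, ← h1, ← h2, div_eq_iff (pow_ne_zero 2 h4)]
  ring

theorem zmod_two (a : ZMod 2) : a = 0 ∨ a = 1 := by
  revert a
  decide

/-- units of `ℤ_l` -/
theorem unit_pow {m : ℚ_[l]} (hm : ‖m‖ = 1) : ‖m ^ (l - 1) - 1‖ < 1 := by
  let z : ℤ_[l] := ⟨m, le_of_eq hm⟩
  have h1 : z ∉ nonunits ℤ_[l] := by
    rw [PadicInt.mem_nonunits]
    change ¬ ‖m‖ < 1
    rw [hm]
    exact lt_irrefl _
  have h2 : PadicInt.toZMod z ≠ 0 := by
    intro h
    apply h1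
    have h3 : z ∈ RingHom.ker (PadicInt.toZMod (p := l)) := h
    rw [PadicInt.ker_toZMod] at h3
    exact (IsLocalRing.mem_maximalIdeal z).1 h3
  have h3 : z ^ (l - 1) - 1 ∈ RingHom.ker (PadicInt.toZMod (p := l)) := by
    rw [RingHom.mem_ker, map_sub, map_pow, map_one, ZMod.pow_card_sub_one_eq_one h2, sub_self]
  rw [PadicInt.ker_toZMod] at h3
  have h4 := PadicInt.mem_nonunits.1 ((IsLocalRing.mem_maximalIdeal _).1 h3)
  have h5 : ‖((z ^ (l - 1) - 1 : ℤ_[l]) : ℚ_[l])‖ < 1 := h4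
  rw [PadicInt.coe_sub, PadicInt.coe_pow, PadicInt.coe_one] at h5
  exact h5

theorem qr_of (hl2 : l ≠ 2) (hN : Nm w ψ) {Y : K} {a : ℚ_[l]} (ha : a ≠ 0)
    (h : ψ Y = algebraMap ℚ_[l] (PadicAlgCl l) a ^ 2) : QR w l Y := by
  refine ⟨-a.valuation, val_lt_one hN ?_⟩
  have hl0 : (l : ℚ_[l]) ≠ 0 := by exact_mod_cast (Fact.out : l.Prime).ne_zero
  have hlr : (l : ℝ) ≠ 0 := by exact_mod_cast (Fact.out : l.Prime).ne_zero
  have e1 : ‖a * (l : ℚ_[l]) ^ (-a.valuation)‖ = 1 := by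
    rw [norm_mul, Padic.norm_p_zpow, Padic.norm_eq_zpow_neg_valuation ha, ← zpow_add₀ hlr]
    norm_num
  have e2 : ψ ((Y * (l : K) ^ (2 * -a.valuation)) ^ ((l - 1) / 2) - 1) =
      algebraMap ℚ_[l] (PadicAlgCl l) ((a * (l : ℚ_[l]) ^ (-a.valuation)) ^ (l - 1) - 1) := by
    have e3 : ψ (Y * (l : K) ^ (2 * -a.valuation)) =
        algebraMap ℚ_[l] (PadicAlgCl l) ((a * (l : ℚ_[l]) ^ (-a.valuation)) ^ 2) := by
      rw [map_mul, h, map_zpow₀, map_natCast, map_pow, map_mul, map_zpow₀, map_natCast, mul_pow]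
      congr 1
      rw [← zpow_natCast, ← zpow_mul]
      congr 1
      push_cast
      ring
    have e4 : 2 * ((l - 1) / 2) = l - 1 := by
      have := (Fact.out : l.Prime).eq_two_or_odd
      have := (Fact.out : l.Prime).two_le
      omega
    rw [map_sub, map_pow, e3, map_one, map_sub, map_one, ← map_pow, ← pow_mul, e4]
  rw [e2, norm_map]
  exact unit_pow e1

theorem cp_mul (g g' : K ≃ₐ[ℚ] K) (ι : L →+* K) : cp (g * g') ι = cp g (cp g' ι) := rfl

/-- composition with an automorphism -/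
def cpE (g : K ≃ₐ[ℚ] K) : (L →+* K) ≃ (L →+* K) where
  toFun := cp g
  invFun := cp g⁻¹
  left_inv := fun ι => by
    rw [← cp_mul, inv_mul_cancel]
    rfl
  right_inv := fun ι => by
    rw [← cp_mul, mul_inv_cancel]
    rfl

theorem cp_pow_mem {F : K ≃ₐ[ℚ] K} {A : Finset (L →+* K)} (hA : ∀ ι, ι ∈ A ↔ cp F ι ∈ A) (i : ℕ)
    (ι : L →+* K) : ι ∈ A ↔ cp (F ^ i) ι ∈ A := by
  induction i with
  | zero => rw [pow_zero]; rfl
  | succ i ih => rw [pow_succ', cp_mul, ← hA, ← ih]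

open Classical in
theorem odd_part [IsGalois ℚ K] (hl2 : l ≠ 2) (hJ : S_J3) (hgl : Gl H l) {D : ℤ} (hD : (l : ℤ) ∣ D)
    (hD2 : ¬ (l : ℤ) ^ 2 ∣ D) (hne : Nonempty (L →+* K)) (hw : Abv w l)
    (hs : Setup H.pol L (th : L)) (hN : Nm w ψ) {d : ℚ[X]} {δ : L} (hδ : δ ≠ 0)
    (hd : aeval (th : L) d = δ) (hloc : LocX H D ℚ_[l] d) (F : K ≃ₐ[ℚ] K) (hF : Fb w l F)
    (hT : ∀ τ : PadicAlgCl l ≃ₐ[ℚ_[l]] PadicAlgCl l, ∃ i : ℕ, ∀ x : K, τ (ψ x) = ψ ((F ^ i) x)) :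
    ∃ e : (L →+* K) → ZMod 2,
      (∀ τ : ℚ →+* K, ∑ ι ∈ Finset.univ.filter (fun ι : L →+* K => ι.comp (algebraMap ℚ L) = τ),
        e ι = 0) ∧
      (∀ ι, e (cp F ι) = e ι) ∧
      (∀ ι, (e ι = 0 → Par w (ι δ) 0) ∧ (e ι = 1 → Par w (ι δ) 1)) ∧
      ∀ A : Finset (L →+* K), (∀ ι, ι ∈ A ↔ cp F ι ∈ A) →
        QR w l (∏ ι ∈ A, ι δ * (if e ι = 1 then (D : K) else 1) * uu (algebraMap ℚ L) th e ι) := by
  obtain ⟨u, v, G, hu, huv, hcop, hdiv⟩ := hloc
  obtain ⟨e, s, hsum, hs1, hs2⟩ := hJ l hl2 H hgl D hD hD2 u v hu huv hcop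
  have hδ' : ∀ ι : L →+* K, ι δ ≠ 0 := fun ι => (map_ne_zero ι).2 hδ
  have hD0 : (D : PadicAlgCl l) ≠ 0 := by
    intro h
    have h1 := norm_D hD hD2
    rw [h, norm_zero] at h1
    have h2 := l_gt (l := l)
    have h3 : (0 : ℝ) < (l : ℝ) ^ (-1 : ℤ) := by positivity
    rw [← h1] at h3
    exact lt_irrefl _ h3
  -- the square roots
  have hM : ∀ ι : L →+* K, Mf D u G s (zt th ψ ι) ^ 2 = ψ (ι δ *
      (if e (zt th ψ ι) = 1 then (D : K) else 1) *
        uu (algebraMap ℚ L) th (fun ι => e (zt th ψ ι)) ι) := by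
    intro ι
    have hx := X_mem hs ψ ι
    have e1 := locx_eval hdiv hx
    rw [aeval_X_d ψ ι hd] at e1
    have e2 := (hs2 _ hx).2
    rw [mul_assoc] at e2
    rw [Mf_sq e1 e2 (hs2 _ hx).1, map_mul, map_mul, uu_eq hne hs ψ e ι, mul_assoc]
    congr 2
    split_ifs
    · rw [map_intCast]
    · rw [map_one]
  have hM0 : ∀ ι : L →+* K, Mf D u G s (zt th ψ ι) ≠ 0 := by
    intro ι h
    have h1 := hM ι
    have hx := X_mem hs ψ ι
    rw [h, map_mul, map_mul, uu_eq hne hs ψ e ι] at h1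
    have h2 : uO H e (zt th ψ ι) ≠ 0 := by
      intro h3
      have h4 := norm_uO hgl e hx
      rw [h3, norm_zero] at h4
      exact zero_ne_one h4
    have h3 : ψ (if e (zt th ψ ι) = 1 then (D : K) else 1) ≠ 0 := by
      split_ifs
      · rw [map_intCast]
        exact hD0
      · rw [map_one]
        exact one_ne_zero
    exact mul_ne_zero (mul_ne_zero ((map_ne_zero ψ).2 (hδ' ι)) h3) h2 (by rw [← h1]; norm_num)
  have hMt : ∀ (τ : PadicAlgCl l ≃ₐ[ℚ_[l]] PadicAlgCl l) (ι : L →+* K),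
      Mf D u G s (τ (zt th ψ ι)) = τ (Mf D u G s (zt th ψ ι)) :=
    fun τ ι => Mf_tau τ (hs1 τ _ (X_mem hs ψ ι)).2
  have hMn : ∀ ι : L →+* K, IP l ‖Mf D u G s (zt th ψ ι)‖ := by
    intro ι
    refine norm_ip ψ (fun y hy => ip_of hN hy) _ (hM0 ι) fun τ hτ => ?_
    have h1 : τ (zt th ψ ι) = zt th ψ ι := hτ _
    rw [← hMt, h1]
  have hMs : ∀ ι : L →+* K, ‖Mf D u G s (zt th ψ ι)‖ ^ 2 = ‖ψ (ι δ)‖ *
      (if e (zt th ψ ι) = 1 then (l : ℝ) ^ (-1 : ℤ) else 1) := by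
    intro ι
    rw [← norm_pow, hM, map_mul, map_mul, norm_mul, norm_mul, uu_eq hne hs ψ e ι,
      norm_uO hgl e (X_mem hs ψ ι), mul_one]
    congr 1
    split_ifs
    · rw [map_intCast, norm_D hD hD2]
    · rw [map_one, norm_one]
  have hpar : ∀ ι : L →+* K, (e (zt th ψ ι) = 0 → Par w (ι δ) 0) ∧
      (e (zt th ψ ι) = 1 → Par w (ι δ) 1) := by
    intro ι
    constructor
    · intro h
      have h1 := hMs ι
      rw [if_neg (by rw [h]; decide), mul_one] at h1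
      exact par_even hN (hδ' ι) (hMn ι) h1.symm
    · intro h
      have h1 := hMs ι
      rw [if_pos h] at h1
      exact par_odd hN (hδ' ι) (hMn ι) h1.symm
  refine ⟨fun ι => e (zt th ψ ι), ?_, ?_, hpar, ?_⟩
  · intro τ
    classical
    rw [rts_eq hne hs ψ, Finset.sum_image (fun _ _ _ _ h => X_inj hs ψ h)] at hsum
    rw [← hsum]
    refine Finset.sum_congr ?_ fun _ _ => rfl
    ext ι
    simp [Subsingleton.elim (ι.comp (algebraMap ℚ L)) τ]
  · intro ι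
    have hv : w.valuation K (cp F ι δ) = w.valuation K (ι δ) :=
      Pool.Agent.Q241.ESM.val_mv (Pool.Agent.Q124.ESM.mv_of_fb (Fact.out : l.Prime).ne_zero hF) (ι δ)
    rcases zmod_two (e (zt th ψ ι)) with h | h <;> rcases zmod_two (e (zt th ψ (cp F ι))) with h' | h'
    · show e (zt th ψ (cp F ι)) = e (zt th ψ ι)
      rw [h, h']
    · obtain ⟨k, hk⟩ := (hpar ι).1 h
      obtain ⟨k', hk'⟩ := (hpar (cp F ι)).2 h'
      rw [hv, hk, WithZero.exp_inj] at hk'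
      omega
    · obtain ⟨k, hk⟩ := (hpar ι).2 h
      obtain ⟨k', hk'⟩ := (hpar (cp F ι)).1 h'
      rw [hv, hk, WithZero.exp_inj] at hk'
      omega
    · show e (zt th ψ (cp F ι)) = e (zt th ψ ι)
      rw [h, h']
  · intro A hA
    have hfix : ∀ τ : PadicAlgCl l ≃ₐ[ℚ_[l]] PadicAlgCl l,
        τ (∏ ι ∈ A, Mf D u G s (zt th ψ ι)) = ∏ ι ∈ A, Mf D u G s (zt th ψ ι) := by
      intro τ
      obtain ⟨i, hi⟩ := hT τ
      rw [map_prod]
      refine Finset.prod_equiv (cpE (F ^ i)) (fun ι => cp_pow_mem hA i ι) fun ι _ => ?_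
      rw [← hMt]
      congr 1
      exact hi _
    obtain ⟨a, ha⟩ := fixed_all _ hfix
    have ha0 : a ≠ 0 := by
      rintro rfl
      rw [map_zero] at ha
      exact Finset.prod_ne_zero_iff.2 (fun ι _ => hM0 ι) ha.symm
    refine qr_of hl2 hN ha0 ?_
    rw [ha, ← Finset.prod_pow, map_prod]
    exact Finset.prod_congr rfl fun ι _ => (hM ι).symm

/-! ### The bad primes -/

/-- the differences of the conjugates -/
noncomputable def df (th : 𝓞 L) (ι ι' : L →+* K) : 𝓞 K :=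
  RingOfIntegers.mapRingHom ι th - RingOfIntegers.mapRingHom ι' th

theorem df_ne (hs : Setup H.pol L (th : L)) {ι ι' : L →+* K} (h : ι ≠ ι') : df th ι ι' ≠ 0 := by
  intro h1
  apply h
  have h2 : ι (th : L) = ι' (th : L) := by
    have h3 := sub_eq_zero.1 h1
    exact congrArg (fun z : 𝓞 K => (z : K)) h3
  have h3 : ι.toRatAlgHom = ι'.toRatAlgHom := Pool.Agent.Q161.SX.Setup.hom_ext hs h2
  ext y
  exact AlgHom.congr_fun h3 y

theorem exists_B [IsGalois ℚ K] (hs : Setup H.pol L (th : L)) : ∃ B : ℕ, B ≠ 0 ∧ ∀ l : ℕ, l.Prime →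
    ¬ l ∣ B → l ≠ 2 ∧ Squarefree (Ideal.span {(l : 𝓞 K)}) ∧
      (∀ w : HeightOneSpectrum (𝓞 K), Abv w l → ∃ F : K ≃ₐ[ℚ] K, Fb w l F) ∧
      ∀ w : HeightOneSpectrum (𝓞 K), Abv w l → ∀ ι ι' : L →+* K, ι ≠ ι' →
        w.valuation K (ι (th : L) - ι' (th : L)) = 1 := by
  classical
  obtain ⟨B0, hB0, hB⟩ := Pool.Agent.Q224.ESM.frx K
  refine ⟨2 * B0 * ∏ ι : L →+* K, ∏ ι' : L →+* K,
    (if ι = ι' then 1 else Ideal.absNorm (Ideal.span {df th ι ι'})), ?_, ?_⟩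
  · refine mul_ne_zero (mul_ne_zero two_ne_zero hB0) (Finset.prod_ne_zero_iff.2
      fun ι _ => Finset.prod_ne_zero_iff.2 fun ι' _ => ?_)
    split_ifs with h
    · exact one_ne_zero
    · rw [Ne, Ideal.absNorm_eq_zero_iff, Ideal.span_singleton_eq_bot]
      exact df_ne hs h
  · intro l hl hlB
    have h1 : ¬ l ∣ B0 := fun h => hlB ((h.mul_left 2).mul_right _)
    obtain ⟨b1, -, b2⟩ := hB l hl h1
    refine ⟨?_, b1, fun w hw => (b2 w hw).1, fun w hw ι ι' hne => ?_⟩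
    · rintro rfl
      exact hlB ((dvd_mul_right 2 _).mul_right _)
    · have h2 : df th ι ι' ∉ w.asIdeal := by
        intro hmem
        apply hlB
        refine Dvd.dvd.mul_left ?_ _
        have h1 : l ∣ Ideal.absNorm (Ideal.span {df th ι ι'}) :=
          Pool.Agent.Q63.EA.dvd_absNorm hl (fun h => h w hw hmem)
        have h2 : (if ι = ι' then 1 else Ideal.absNorm (Ideal.span {df th ι ι'})) ∣
            ∏ ι : L →+* K, ∏ ι' : L →+* K,
              (if ι = ι' then 1 else Ideal.absNorm (Ideal.span {df th ι ι'})) :=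
          ((Finset.dvd_prod_of_mem (fun ι' => if ι = ι' then 1 else
            Ideal.absNorm (Ideal.span {df th ι ι'})) (Finset.mem_univ ι')).trans
            (Finset.dvd_prod_of_mem (fun ι => ∏ ι' : L →+* K, (if ι = ι' then 1 else
            Ideal.absNorm (Ideal.span {df th ι ι'}))) (Finset.mem_univ ι)))
        rw [if_neg hne] at h2
        exact h1.trans h2
      have h3 : w.valuation K (ι (th : L) - ι' (th : L)) = w.intValuation (df th ι ι') :=
        w.valuation_of_algebraMap (K := K) (df th ι ι')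
      rw [h3]
      exact w.intValuation_eq_one_iff.2 h2

end parts

/-- JOB GDJ -/
theorem gdj : S_J3 → S_J3E → S_EMBW → S_GDJ := by
  intro hJ hE hW H L _ _ th hs K _ _ _ hne
  obtain ⟨B, hB0, hB⟩ := exists_B (K := K) hs
  refine ⟨B, hB0, ?_⟩
  intro D δ hsq hδ hloc
  obtain ⟨d, hd, hloc⟩ := hloc
  constructor
  · intro l hl hlB hlD w hw ι
    haveI : Fact l.Prime := ⟨hl⟩
    obtain ⟨c1, c2, c3, c4⟩ := hB l hl hlB
    obtain ⟨ψ, hN, hT⟩ := hW K l c2 w hw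
    have hgl : Gl H l := gl hne hs ψ (fun ι ι' h => norm_of_one hN (c4 w hw ι ι' h))
    exact even_part c1 hE hgl hlD hs hN hδ hd (hloc l) ι
  · intro l hl hlB hlD w hw F hF
    haveI : Fact l.Prime := ⟨hl⟩
    obtain ⟨c1, c2, c3, c4⟩ := hB l hl hlB
    obtain ⟨ψ, hN, hT⟩ := hW K l c2 w hw
    have hgl : Gl H l := gl hne hs ψ (fun ι ι' h => norm_of_one hN (c4 w hw ι ι' h))
    have hD2 : ¬ (l : ℤ) ^ 2 ∣ D := by
      intro h
      rw [pow_two] at h
      have h1 := hsq _ h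
      exact (Nat.prime_iff_prime_int.1 hl).not_unit h1
    exact odd_part c1 hJ hgl hlD hD2 hne hw hs hN hδ hd (hloc l) F hF (hT F hF)

end Pool.Agent.Q177.ESG.GDJ
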